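import Pool.Agent.Helper38.ZS.Stmts

/-!
# Zonotope signing, module 10: greedy forests
-/

namespace Pool.Agent.Helper27.ZS

open Finset
open scoped Classical
open Pool.Agent.Helper38.ZS

noncomputable section

variable {ι : Type}

/-! ## balls -/

section balls

variable (P : ι → ι → ℝ) (K : ℝ) (Z : Finset ι)

theorem mem_bd {B : Finset ι} {l : ι} :
    l ∈ bd P K Z B ↔ l ∈ Z ∧ l ∉ B ∧ ∃ k ∈ B, Adj P K l k := by
  simp only [bd, mem_filter, mem_sdiff, and_assoc]

theorem mem_grow {B : Finset ι} {l : ι} :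
    l ∈ grow P K Z B ↔ l ∈ B ∨ (l ∈ Z ∧ ∃ k ∈ B, Adj P K l k) := by
  simp only [grow, mem_union, mem_bd]
  constructor
  · rintro (h | ⟨h1, _, h3⟩)
    · exact Or.inl h
    · exact Or.inr ⟨h1, h3⟩
  · rintro (h | ⟨h1, h3⟩)
    · exact Or.inl h
    · by_cases hl : l ∈ B
      · exact Or.inl hl
      · exact Or.inr ⟨h1, hl, h3⟩

theorem grow_mono {B B' : Finset ι} (h : B ⊆ B') : grow P K Z B ⊆ grow P K Z B' := by
  intro l hl
  rw [mem_grow] at hl ⊢
  rcases hl with hl | ⟨h1, k, hk, h2⟩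
  · exact Or.inl (h hl)
  · exact Or.inr ⟨h1, k, h hk, h2⟩

theorem iter_mono {B B' : Finset ι} (h : B ⊆ B') (r : ℕ) :
    (grow P K Z)^[r] B ⊆ (grow P K Z)^[r] B' := by
  induction r with
  | zero => simpa using h
  | succ r ih =>
    rw [Function.iterate_succ_apply', Function.iterate_succ_apply']
    exact grow_mono P K Z ih

theorem ball_zero (s : ι) : ball P K Z s 0 = {s} := rfl

theorem ball_succ (s : ι) (r : ℕ) : ball P K Z s (r + 1) = grow P K Z (ball P K Z s r) := by
  simp only [ball]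
  rw [Function.iterate_succ_apply']

theorem ball_sub_succ (s : ι) (r : ℕ) : ball P K Z s r ⊆ ball P K Z s (r + 1) := by
  rw [ball_succ]
  intro l hl
  rw [mem_grow]
  exact Or.inl hl

theorem ball_mono (s : ι) {r r' : ℕ} (h : r ≤ r') : ball P K Z s r ⊆ ball P K Z s r' := by
  induction h with
  | refl => exact subset_rfl
  | step _ ih => exact ih.trans (ball_sub_succ P K Z s _)

theorem mem_ball_self (s : ι) (r : ℕ) : s ∈ ball P K Z s r :=
  ball_mono P K Z s (Nat.zero_le r) (by simp [ball_zero])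

theorem ball_sub {s : ι} (hs : s ∈ Z) (r : ℕ) : ball P K Z s r ⊆ Z := by
  induction r with
  | zero => simpa [ball_zero] using hs
  | succ r ih =>
    rw [ball_succ]
    intro l hl
    rw [mem_grow] at hl
    rcases hl with hl | ⟨h1, _⟩
    · exact ih hl
    · exact h1

theorem ball_trans {s x y : ι} {r r' : ℕ} (hx : x ∈ ball P K Z s r) (hy : y ∈ ball P K Z x r') :
    y ∈ ball P K Z s (r + r') := by
  have h1 : ball P K Z x r' ⊆ (grow P K Z)^[r'] (ball P K Z s r) := by
    apply iter_mono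
    simpa using hx
  have h2 : (grow P K Z)^[r'] (ball P K Z s r) = ball P K Z s (r + r') := by
    simp only [ball]
    rw [Nat.add_comm, Function.iterate_add_apply]
  rw [← h2]
  exact h1 hy

theorem adj_symm (hP : ∀ i j, P i j = P j i) {i j : ι} (h : Adj P K i j) : Adj P K j i := by
  simpa only [Adj, hP j i] using h

theorem ball_symm (hP : ∀ i j, P i j = P j i) {s : ι} (hs : s ∈ Z) (r : ℕ) :
    ∀ t, t ∈ ball P K Z s r → s ∈ ball P K Z t r := by
  induction r with
  | zero =>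
    intro t ht
    simp only [ball_zero, mem_singleton] at ht ⊢
    exact ht.symm
  | succ r ih =>
    intro t ht
    rw [ball_succ, mem_grow] at ht
    rcases ht with ht | ⟨h1, k, hk, h2⟩
    · exact ball_sub_succ P K Z t r (ih t ht)
    · have hkZ : k ∈ Z := ball_sub P K Z hs r hk
      have hk1 : k ∈ ball P K Z t 1 := by
        rw [show (1 : ℕ) = 0 + 1 from rfl, ball_succ, mem_grow]
        exact Or.inr ⟨hkZ, t, by simp [ball_zero], adj_symm P K hP h2⟩
      have := ball_trans P K Z hk1 (ih k hk)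
      rwa [Nat.add_comm] at this

/-- a path from `s` to a point of the ball -/
theorem path_exists (hP : ∀ i j, P i j = P j i) {s : ι} (hs : s ∈ Z) (r : ℕ) :
    ∀ t, t ∈ ball P K Z s r →
      ∃ W : Finset ι, W ⊆ Z ∧ s ∈ W ∧ t ∈ W ∧ #W ≤ r + 1 ∧ Rooted (Adj P K) {t} W := by
  induction r with
  | zero =>
    intro t ht
    simp only [ball_zero, mem_singleton] at ht
    subst ht
    refine ⟨{t}, by simpa using hs, by simp, by simp, by simp, ?_⟩
    intro A hA hne hdis
    exfalso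
    obtain ⟨a, ha⟩ := hne
    exact (Finset.disjoint_left.1 hdis ha) (hA ha)
  | succ r ih =>
    intro t ht
    rw [ball_succ, mem_grow] at ht
    rcases ht with ht | ⟨h1, k, hk, h2⟩
    · obtain ⟨W, w1, w2, w3, w4, w5⟩ := ih t ht
      exact ⟨W, w1, w2, w3, by omega, w5⟩
    · obtain ⟨W, w1, w2, w3, w4, w5⟩ := ih k hk
      refine ⟨insert t W, ?_, mem_insert_of_mem w2, mem_insert_self _ _, ?_, ?_⟩
      · intro x hx
        rcases mem_insert.1 hx with rfl | hx
        · exact h1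
        · exact w1 hx
      · exact (card_insert_le _ _).trans (by omega)
      · intro A hA hne hdis
        have htA : t ∉ A := fun h => (Finset.disjoint_left.1 hdis h) (mem_singleton_self t)
        have hAW : A ⊆ W := by
          intro x hx
          rcases mem_insert.1 (hA hx) with rfl | hx'
          · exact absurd hx htA
          · exact hx'
        by_cases hkA : k ∈ A
        · exact ⟨k, hkA, t, mem_insert_self _ _, htA, adj_symm P K hP h2⟩
        · obtain ⟨a, ha, b, hb, hba, hR⟩ := w5 A hAW hne (by simpa using hkA)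
          exact ⟨a, ha, b, mem_insert_of_mem hb, hba, hR⟩

/-- adding a path to a rooted set -/
theorem rooted_union {R : ι → ι → Prop} {T W W' : Finset ι} {t : ι} (hW : Rooted R T W)
    (hW' : Rooted R {t} W') (ht : t ∈ T ∪ W) : Rooted R T (W ∪ W') := by
  intro A hA hne hdis
  by_cases hAW : (A ∩ W).Nonempty
  · obtain ⟨a, ha, b, hb, hba, hR⟩ := hW (A ∩ W) inter_subset_right hAW
      (Disjoint.mono_left inter_subset_left hdis)
    refine ⟨a, mem_of_mem_inter_left ha, b, mem_union_left _ hb, ?_, hR⟩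
    intro h
    exact hba (mem_inter.2 ⟨h, hb⟩)
  · have hAW' : ∀ x ∈ A, x ∉ W := by
      intro x hx hxW
      exact hAW ⟨x, mem_inter.2 ⟨hx, hxW⟩⟩
    have htA : t ∉ A := by
      intro h
      rcases mem_union.1 ht with h1 | h1
      · exact Finset.disjoint_left.1 hdis h h1
      · exact hAW' t h h1
    have hA' : A ⊆ W' := by
      intro x hx
      rcases mem_union.1 (hA hx) with h1 | h1
      · exact absurd h1 (hAW' x hx)
      · exact h1
    obtain ⟨a, ha, b, hb, hba, hR⟩ := hW' A hA' hne (by simpa using htA)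
    exact ⟨a, ha, b, mem_union_right _ hb, hba, hR⟩

/-- the greedy forest with its length function -/
theorem greedy_forest (hP : ∀ i j, P i j = P j i) (T : Finset ι) (S : Finset ι) (hS : S ⊆ Z)
    (hT : ∀ s ∈ S, ∃ r : ℕ, ¬ Disjoint (ball P K Z s r) T) :
    ∃ (W : Finset ι) (l : ι → ℕ), S ⊆ W ∧ W ⊆ Z ∧ Rooted (Adj P K) T W ∧
      #W ≤ ∑ s ∈ S, (l s + 1) ∧
      (∀ s ∈ S, ∀ r < l s, Disjoint (ball P K Z s r) T) ∧
      (∀ s ∈ S, ∀ s' ∈ S, s ≠ s' → ∀ r, r < l s → r < l s' → s' ∉ ball P K Z s r) := by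
  induction S using Finset.induction_on with
  | empty =>
    refine ⟨∅, fun _ => 0, by simp, by simp, ?_, by simp, by simp, by simp⟩
    intro A hA hne _
    exact absurd (Finset.subset_empty.1 hA) hne.ne_empty
  | insert s S' hs ih =>
    obtain ⟨W, l, h1, h2, h3, h4, h5, h6⟩ := ih (fun x hx => hS (mem_insert_of_mem hx))
      (fun x hx => hT x (mem_insert_of_mem hx))
    have hsZ : s ∈ Z := hS (mem_insert_self _ _)
    have hex : ∃ r : ℕ, ¬ Disjoint (ball P K Z s r) (T ∪ S') := by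
      obtain ⟨r, hr⟩ := hT s (mem_insert_self _ _)
      exact ⟨r, fun h => hr (Disjoint.mono_right subset_union_left h)⟩
    set r0 := Nat.find hex with hr0
    have hr0s : ¬ Disjoint (ball P K Z s r0) (T ∪ S') := Nat.find_spec hex
    have hr0m : ∀ r < r0, Disjoint (ball P K Z s r) (T ∪ S') := by
      intro r hr
      by_contra h
      exact Nat.find_min hex hr h
    obtain ⟨t, ht1, ht2⟩ := Finset.not_disjoint_iff.1 hr0s
    obtain ⟨Wp, p1, p2, p3, p4, p5⟩ := path_exists P K Z hP hsZ r0 t ht1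
    refine ⟨W ∪ Wp, Function.update l s r0, ?_, union_subset h2 p1, ?_, ?_, ?_, ?_⟩
    · intro x hx
      rcases mem_insert.1 hx with rfl | hx
      · exact mem_union_right _ p2
      · exact mem_union_left _ (h1 hx)
    · refine rooted_union h3 p5 ?_
      rcases mem_union.1 ht2 with h | h
      · exact mem_union_left _ h
      · exact mem_union_right _ (h1 h)
    · have e1 : ∑ x ∈ S', (Function.update l s r0 x + 1) = ∑ x ∈ S', (l x + 1) := by
        refine sum_congr rfl fun x hx => ?_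
        have : x ≠ s := by rintro rfl; exact hs hx
        rw [Function.update_of_ne this]
      rw [sum_insert hs, e1, Function.update_self]
      calc #(W ∪ Wp) ≤ #W + #Wp := card_union_le _ _
        _ ≤ _ := by omega
    · intro x hx r hr
      rcases mem_insert.1 hx with rfl | hx'
      · rw [Function.update_self] at hr
        exact Disjoint.mono_right subset_union_left (hr0m r hr)
      · have : x ≠ s := by rintro rfl; exact hs hx'
        rw [Function.update_of_ne this] at hr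
        exact h5 x hx' r hr
    · intro x hx y hy hxy r hrx hry
      rcases mem_insert.1 hx with rfl | hx'
      · rcases mem_insert.1 hy with rfl | hy'
        · exact absurd rfl hxy
        · rw [Function.update_self] at hrx
          intro hmem
          exact (Finset.disjoint_left.1 (hr0m r hrx) hmem) (mem_union_right _ hy')
      · have hxs : x ≠ s := by rintro rfl; exact hs hx'
        rcases mem_insert.1 hy with rfl | hy'
        · rw [Function.update_self] at hry
          intro hmem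
          have hxZ : x ∈ Z := hS (mem_insert_of_mem hx')
          have := ball_symm P K Z hP hxZ r y hmem
          exact (Finset.disjoint_left.1 (hr0m r hry) this) (mem_union_right _ hx')
        · have hys : y ≠ s := by rintro rfl; exact hs hy'
          rw [Function.update_of_ne hxs] at hrx
          rw [Function.update_of_ne hys] at hry
          exact h6 x hx' y hy' hxy r hrx hry

end balls

/-! ## the sum -/

/-- one term of the telescoping estimate -/
theorem rpow_step (n : ℕ) (hn : 1 ≤ n) :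
    (n : ℝ) ^ (-(21 / 20 : ℝ)) ≤
      42 * ((n : ℝ) ^ (-(1 / 20 : ℝ)) - ((n : ℝ) + 1) ^ (-(1 / 20 : ℝ))) := by
  have hx : (1 : ℝ) ≤ (n : ℝ) := by exact_mod_cast hn
  have hx0 : (0 : ℝ) < (n : ℝ) := by linarith
  have hy0 : (0 : ℝ) < (n : ℝ) + 1 := by linarith
  set x : ℝ := (n : ℝ) with hxdef
  have hxp : 0 < x ^ (-(1 / 20 : ℝ)) := Real.rpow_pos_of_pos hx0 _
  have e1 : x ^ (-(21 / 20 : ℝ)) = x ^ (-(1 / 20 : ℝ)) * x⁻¹ := by
    rw [show (-(21 / 20 : ℝ)) = -(1 / 20 : ℝ) + (-1) by norm_num, Real.rpow_add hx0,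
      Real.rpow_neg_one]
  have e2 : (x + 1) ^ (-(1 / 20 : ℝ)) = x ^ (-(1 / 20 : ℝ)) * (x / (x + 1)) ^ (1 / 20 : ℝ) := by
    rw [Real.div_rpow hx0.le hy0.le, Real.rpow_neg hx0.le, Real.rpow_neg hy0.le]
    have : x ^ (1 / 20 : ℝ) ≠ 0 := (Real.rpow_pos_of_pos hx0 _).ne'
    field_simp
  have e3 : (x / (x + 1)) ^ (1 / 20 : ℝ) ≤ 1 - 1 / (20 * (x + 1)) := by
    have h1 : x / (x + 1) = 1 + (-(1 / (x + 1))) := by field_simp; ring
    have h2 : (-1 : ℝ) ≤ -(1 / (x + 1)) := by
      have : 1 / (x + 1) ≤ 1 := by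
        rw [div_le_one hy0]; linarith
      linarith
    have h3 := _root_.rpow_one_add_le_one_add_mul_self h2 (by norm_num : (0 : ℝ) ≤ 1 / 20)
      (by norm_num : (1 / 20 : ℝ) ≤ 1)
    rw [h1]
    refine h3.trans (le_of_eq ?_)
    field_simp
    ring
  rw [e1, e2]
  have e4 : x⁻¹ ≤ 42 * (1 - (x / (x + 1)) ^ (1 / 20 : ℝ)) := by
    have h5 : x⁻¹ ≤ 42 * (1 / (20 * (x + 1))) := by
      rw [inv_eq_one_div, mul_one_div, div_le_div_iff₀ hx0 (by positivity)]
      linarith
    linarith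
  calc x ^ (-(1 / 20 : ℝ)) * x⁻¹
      ≤ x ^ (-(1 / 20 : ℝ)) * (42 * (1 - (x / (x + 1)) ^ (1 / 20 : ℝ))) :=
        mul_le_mul_of_nonneg_left e4 hxp.le
    _ = 42 * (x ^ (-(1 / 20 : ℝ)) - x ^ (-(1 / 20 : ℝ)) * (x / (x + 1)) ^ (1 / 20 : ℝ)) := by
        ring

theorem sum_rpow (R0 : ℕ) (h : 1 ≤ R0) (N : ℕ) :
    ∑ R ∈ Ico R0 (R0 + N), (R : ℝ) ^ (-(21 / 20 : ℝ)) ≤
      42 * ((R0 : ℝ) ^ (-(1 / 20 : ℝ)) - ((R0 + N : ℕ) : ℝ) ^ (-(1 / 20 : ℝ))) := by
  induction N with
  | zero => simp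
  | succ N ih =>
    rw [← Nat.add_assoc, sum_Ico_succ_top (by omega)]
    have := rpow_step (R0 + N) (by omega)
    push_cast at this ih ⊢
    linarith

theorem sum_rpow' (R0 : ℕ) (h : 1 ≤ R0) (N : ℕ) :
    ∑ R ∈ Ico R0 (R0 + N), (R : ℝ) ^ (-(21 / 20 : ℝ)) ≤ 42 * (R0 : ℝ) ^ (-(1 / 20 : ℝ)) := by
  have h1 := sum_rpow R0 h N
  have h2 : (0 : ℝ) ≤ ((R0 + N : ℕ) : ℝ) ^ (-(1 / 20 : ℝ)) := by positivity
  linarith

theorem sum_half (f : ℕ → ℝ) (R0 N : ℕ) :
    ∑ r ∈ Ico (2 * R0) (2 * (R0 + N)), f (r / 2) = 2 * ∑ R ∈ Ico R0 (R0 + N), f R := by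
  induction N with
  | zero => simp
  | succ N ih =>
    rw [show 2 * (R0 + (N + 1)) = 2 * (R0 + N) + 1 + 1 by ring,
      sum_Ico_succ_top (by omega), sum_Ico_succ_top (by omega), ih,
      show R0 + (N + 1) = R0 + N + 1 by ring, sum_Ico_succ_top (by omega)]
    rw [show (2 * (R0 + N) + 1) / 2 = R0 + N by omega, show 2 * (R0 + N) / 2 = R0 + N by omega]
    ring

theorem sum_len (S : Finset ι) (l : ι → ℕ) (N : ℕ) (h : ∀ s ∈ S, l s ≤ N) :
    ((∑ s ∈ S, l s : ℕ) : ℝ) = ∑ r ∈ range N, (#(S.filter (fun s => r < l s)) : ℝ) := by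
  have h1 : ∀ s ∈ S, l s = ∑ r ∈ range N, (if r < l s then 1 else 0) := by
    intro s hs
    rw [sum_boole]
    have : (range N).filter (fun r => r < l s) = range (l s) := by
      ext r
      simp only [mem_filter, mem_range]
      have := h s hs
      omega
    rw [this]
    simp
  have h2 : ∑ s ∈ S, l s = ∑ r ∈ range N, #(S.filter (fun s => r < l s)) := by
    calc ∑ s ∈ S, l s = ∑ s ∈ S, ∑ r ∈ range N, (if r < l s then 1 else 0) := sum_congr rfl h1
      _ = ∑ r ∈ range N, ∑ s ∈ S, (if r < l s then 1 else 0) := sum_comm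
      _ = _ := by
        refine sum_congr rfl fun r _ => ?_
        rw [sum_boole]
        simp
  rw [h2]
  push_cast
  rfl

theorem st_greedy : ST_GREEDY := by
  intro ι _ P K Z S T c R0 hP hR0 hc hSZ hT hA
  obtain ⟨W, l, h1, h2, h3, h4, h5, h6⟩ := greedy_forest P K Z hP T S hSZ hT
  refine ⟨W, h1, h2, h3, ?_⟩
  -- the sets of large length
  have key : ∀ r : ℕ, 2 * R0 ≤ r →
      (#(S.filter (fun s => r < l s)) : ℝ) ≤ c * ((r / 2 : ℕ) : ℝ) ^ (-(21 / 20 : ℝ)) := by
    intro r hr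
    apply hA (r / 2) _ (by omega) (filter_subset _ _)
    · intro a ha b hb hab
      rw [mem_filter] at ha hb
      rw [Finset.disjoint_left]
      intro x hxa hxb
      have hbZ : b ∈ Z := hSZ hb.1
      have hxb' : b ∈ ball P K Z x (r / 2) := ball_symm P K Z hP hbZ _ x hxb
      have hab' : b ∈ ball P K Z a (r / 2 + r / 2) := ball_trans P K Z hxa hxb'
      exact h6 a ha.1 b hb.1 hab (r / 2 + r / 2) (by omega) (by omega) hab'
    · intro a ha
      rw [mem_filter] at ha
      exact h5 a ha.1 (2 * (r / 2)) (by omega)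
  set N : ℕ := ∑ s ∈ S, l s with hN
  have hl : ∀ s ∈ S, l s ≤ 2 * (R0 + N) := by
    intro s hs
    have : l s ≤ N := single_le_sum (f := l) (fun _ _ => Nat.zero_le _) hs
    omega
  have hsum := sum_len S l (2 * (R0 + N)) hl
  have hsplit : ∑ r ∈ range (2 * (R0 + N)), (#(S.filter (fun s => r < l s)) : ℝ) =
      ∑ r ∈ range (2 * R0), (#(S.filter (fun s => r < l s)) : ℝ) +
      ∑ r ∈ Ico (2 * R0) (2 * (R0 + N)), (#(S.filter (fun s => r < l s)) : ℝ) := by
    rw [← Finset.sum_range_add_sum_Ico _ (by omega : 2 * R0 ≤ 2 * (R0 + N))]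
  have hfirst : ∑ r ∈ range (2 * R0), (#(S.filter (fun s => r < l s)) : ℝ) ≤
      2 * R0 * (#S : ℝ) := by
    calc ∑ r ∈ range (2 * R0), (#(S.filter (fun s => r < l s)) : ℝ)
        ≤ ∑ r ∈ range (2 * R0), (#S : ℝ) := by
          refine sum_le_sum fun r _ => ?_
          exact_mod_cast card_le_card (filter_subset _ _)
      _ = 2 * R0 * (#S : ℝ) := by
          rw [sum_const, card_range, nsmul_eq_mul]; push_cast; ring
  have hsecond : ∑ r ∈ Ico (2 * R0) (2 * (R0 + N)), (#(S.filter (fun s => r < l s)) : ℝ) ≤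
      84 * c * (R0 : ℝ) ^ (-(1 / 20 : ℝ)) := by
    calc ∑ r ∈ Ico (2 * R0) (2 * (R0 + N)), (#(S.filter (fun s => r < l s)) : ℝ)
        ≤ ∑ r ∈ Ico (2 * R0) (2 * (R0 + N)), c * ((r / 2 : ℕ) : ℝ) ^ (-(21 / 20 : ℝ)) := by
          refine sum_le_sum fun r hr => key r (mem_Ico.1 hr).1
      _ = 2 * ∑ R ∈ Ico R0 (R0 + N), c * (R : ℝ) ^ (-(21 / 20 : ℝ)) :=
          sum_half (fun R => c * (R : ℝ) ^ (-(21 / 20 : ℝ))) R0 N
      _ = 2 * c * ∑ R ∈ Ico R0 (R0 + N), (R : ℝ) ^ (-(21 / 20 : ℝ)) := by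
          rw [← mul_sum]; ring
      _ ≤ 2 * c * (42 * (R0 : ℝ) ^ (-(1 / 20 : ℝ))) :=
          mul_le_mul_of_nonneg_left (sum_rpow' R0 hR0 N) (by positivity)
      _ = _ := by ring
  have hW : (#W : ℝ) ≤ ((∑ s ∈ S, l s : ℕ) : ℝ) + (#S : ℝ) := by
    have : #W ≤ (∑ s ∈ S, l s) + #S := by
      refine h4.trans (le_of_eq ?_)
      rw [sum_add_distrib]
      simp
    exact_mod_cast this
  have hpos : (0 : ℝ) ≤ c * (R0 : ℝ) ^ (-(1 / 20 : ℝ)) := by positivity
  have hSn : (0 : ℝ) ≤ (#S : ℝ) := by positivity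
  nlinarith [hW, hsum, hsplit, hfirst, hsecond, hpos, hSn]

end

end Pool.Agent.Helper27.ZS
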